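import Mathlib

/-!
# The plane puzzle and the alternating group (project SN)

`H` chains with places in the plane `ℕ × ℕ`.  A set move changes the set of places by one point;
every chain stays or moves by `(1, 0)` or `(0, 1)`.  An abstract predicate `Q x G` (places `x`,
set `G` of permutations of the labels) which is preserved by all set moves, with optional relabelling
`c` when the moved configuration can be reached by two matchings, allows to pass from the
alternating group to the trivial group and to all places far away in different rows.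
-/

namespace Pool.Agent.Helper34.SN

open Equiv Function

variable {H : ℕ}

/-- A chain stays, or moves by one step in one of the two directions. -/
def Adj (p q : ℕ × ℕ) : Prop := q = p ∨ q = p + (1, 0) ∨ q = p + (0, 1)

/-- `Q` is preserved by set moves with optional relabelling. -/
def SetMoves (Q : (Fin H → ℕ × ℕ) → Set (Perm (Fin H)) → Prop) : Prop :=
  ∀ (x y : Fin H → ℕ × ℕ) (c : Perm (Fin H)) (G G' : Set (Perm (Fin H))),
    Injective x → Injective y → (∀ i, Adj (x i) (y i)) → (∀ i, Adj (x i) (y (c i))) →
    (∃ a b, a ∈ Set.range x ∧ b ∉ Set.range x ∧ Set.range y = insert b (Set.range x \ {a})) →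
    (∀ g ∈ G, g ∈ G' ∨ g * c⁻¹ ∈ G') → Q x G → Q y G'

/-- A single chain moves by one step to a free place. -/
def Mv (x y : Fin H → ℕ × ℕ) : Prop :=
  Injective x ∧ Injective y ∧ ∃ i e, (e = ((1, 0) : ℕ × ℕ) ∨ e = (0, 1)) ∧
    y = update x i (x i + e)

/-- Reachable by single moves. -/
def Reach (x y : Fin H → ℕ × ℕ) : Prop := Relation.ReflTransGen Mv x y

private theorem range_update {α β : Type*} [DecidableEq α] {x : α → β} (hx : Injective x)
    (i : α) (b : β) : Set.range (update x i b) = insert b (Set.range x \ {x i}) := by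
  ext p
  constructor
  · rintro ⟨k, rfl⟩
    by_cases hk : k = i
    · subst hk
      left
      simp
    · right
      rw [update_of_ne hk]
      exact ⟨⟨k, rfl⟩, fun h => hk (hx h)⟩
  · rintro (rfl | ⟨⟨k, rfl⟩, hk⟩)
    · exact ⟨i, by simp⟩
    · have hki : k ≠ i := by
        rintro rfl
        exact hk rfl
      exact ⟨k, by rw [update_of_ne hki]⟩

theorem reach_Q {Q : (Fin H → ℕ × ℕ) → Set (Perm (Fin H)) → Prop} (hQ : SetMoves Q)
    {x y : Fin H → ℕ × ℕ} (h : Reach x y) {G : Set (Perm (Fin H))} (hx : Q x G) : Q y G := by
  induction h with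
  | refl => exact hx
  | tail _ hm ih =>
    obtain ⟨h1, h2, i, e, he, rfl⟩ := hm
    rename_i z w
    have hadj : ∀ k, Adj (z k) (update z i (z i + e) k) := by
      intro k
      by_cases hk : k = i
      · subst hk
        rw [update_self]
        rcases he with rfl | rfl
        · right; left; rfl
        · right; right; rfl
      · rw [update_of_ne hk]
        left; rfl
    have hne : z i + e ≠ z i := by
      intro h
      have := congrArg (fun p : ℕ × ℕ => p.1 + p.2) h
      rcases he with rfl | rfl <;> simp at this
    refine hQ z _ 1 G G h1 h2 hadj hadj ⟨z i, z i + e, ⟨i, rfl⟩, ?_, range_update h1 i _⟩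
      (fun g hg => Or.inl hg) ih
    rintro ⟨k, hk⟩
    have hki : k ≠ i := by
      rintro rfl
      exact hne hk.symm
    have h3 : update z i (z i + e) k = update z i (z i + e) i := by
      rw [update_of_ne hki, update_self, hk]
    exact hki (h2 h3)

theorem reach_inj {x y : Fin H → ℕ × ℕ} (hx : Injective x) (h : Reach x y) : Injective y := by
  induction h with
  | refl => exact hx
  | tail _ hm _ => exact hm.2.1

/-- injectivity of an update -/
private theorem inj_update {α β : Type*} [DecidableEq α] {x : α → β} (hx : Injective x)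
    {i : α} {b : β} (hb : ∀ k, k ≠ i → x k ≠ b) : Injective (update x i b) := by
  intro p q hpq
  by_cases hp : p = i
  · subst hp
    by_cases hq : q = p
    · exact hq.symm
    · rw [update_self, update_of_ne hq] at hpq
      exact absurd hpq.symm (hb q hq)
  · by_cases hq : q = i
    · subst hq
      rw [update_self, update_of_ne hp] at hpq
      exact absurd hpq (hb p hp)
    · rw [update_of_ne hp, update_of_ne hq] at hpq
      exact hx hpq

/-- One chain moves to the right along free places. -/
theorem reach_right {x : Fin H → ℕ × ℕ} (hx : Injective x) (i : Fin H) (n : ℕ)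
    (hfree : ∀ k, k ≠ i → (x k).2 = (x i).2 → (x k).1 ≤ (x i).1 ∨ (x i).1 + n < (x k).1) :
    Reach x (update x i ((x i).1 + n, (x i).2)) := by
  induction n with
  | zero =>
    have : update x i ((x i).1 + 0, (x i).2) = x := by
      rw [add_zero]
      exact update_eq_self i x
    rw [this]
    exact Relation.ReflTransGen.refl
  | succ n ih =>
    have ih' := ih (fun k hk hk2 => by
      rcases hfree k hk hk2 with h | h
      · exact Or.inl h
      · right; omega)
    have h1 := reach_inj hx ih'
    refine Relation.ReflTransGen.tail ih' ⟨h1, ?_, i, (1, 0), Or.inl rfl, ?_⟩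
    · apply inj_update hx
      intro k hk h
      have h2 : (x k).2 = (x i).2 := by rw [h]
      have h3 : (x k).1 = (x i).1 + (n + 1) := by rw [h]
      rcases hfree k hk h2 with h4 | h4 <;> omega
    · rw [update_self, update_idem]
      congr 1

/-- One chain moves up along free places. -/
theorem reach_up {x : Fin H → ℕ × ℕ} (hx : Injective x) (i : Fin H) (n : ℕ)
    (hfree : ∀ k, k ≠ i → (x k).1 = (x i).1 → (x k).2 ≤ (x i).2 ∨ (x i).2 + n < (x k).2) :
    Reach x (update x i ((x i).1, (x i).2 + n)) := by
  induction n with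
  | zero =>
    have : update x i ((x i).1, (x i).2 + 0) = x := by
      rw [add_zero]
      exact update_eq_self i x
    rw [this]
    exact Relation.ReflTransGen.refl
  | succ n ih =>
    have ih' := ih (fun k hk hk2 => by
      rcases hfree k hk hk2 with h | h
      · exact Or.inl h
      · right; omega)
    have h1 := reach_inj hx ih'
    refine Relation.ReflTransGen.tail ih' ⟨h1, ?_, i, (0, 1), Or.inr rfl, ?_⟩
    · apply inj_update hx
      intro k hk h
      have h2 : (x k).1 = (x i).1 := by rw [h]
      have h3 : (x k).2 = (x i).2 + (n + 1) := by rw [h]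
      rcases hfree k hk h2 with h4 | h4 <;> omega
    · rw [update_self, update_idem]
      congr 1

private theorem up_all {x : Fin H → ℕ × ℕ} (hx : Injective fun i => (x i).1) (r : Fin H → ℕ)
    (hr : ∀ i, (x i).2 ≤ r i) : Reach x (fun i => ((x i).1, r i)) := by
  classical
  have hx' : Injective x := fun p q h => hx (congrArg Prod.fst h)
  have key : ∀ S : Finset (Fin H),
      Reach x (fun i => if i ∈ S then ((x i).1, r i) else x i) := by
    intro S
    induction S using Finset.induction_on with
    | empty =>
      simp only [Finset.notMem_empty, if_false]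
      exact Relation.ReflTransGen.refl
    | insert a S ha ih =>
      have h1 := reach_inj hx' ih
      have h2 := reach_up h1 a (r a - (x a).2) (by
        intro k hk hk1
        exfalso
        apply hk
        apply hx
        simp only at hk1 ⊢
        by_cases hkS : k ∈ S <;> by_cases haS : a ∈ S <;> simpa [hkS, haS] using hk1)
      refine Relation.ReflTransGen.trans ih ?_
      have e : (fun i => if i ∈ insert a S then ((x i).1, r i) else x i) =
          update (fun i => if i ∈ S then ((x i).1, r i) else x i) a
            ((if a ∈ S then ((x a).1, r a) else x a).1,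
              (if a ∈ S then ((x a).1, r a) else x a).2 + (r a - (x a).2)) := by
        funext k
        by_cases hk : k = a
        · subst hk
          rw [update_self]
          have := hr k
          simp only [Finset.mem_insert_self, if_true, if_neg ha, Prod.mk.injEq, true_and]
          omega
        · rw [update_of_ne hk]
          simp [Finset.mem_insert, hk]
      rw [e]
      exact h2
  have := key Finset.univ
  simpa using this

private theorem right_all {x : Fin H → ℕ × ℕ} (hx : Injective fun i => (x i).2) (r : Fin H → ℕ)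
    (hr : ∀ i, (x i).1 ≤ r i) : Reach x (fun i => (r i, (x i).2)) := by
  classical
  have hx' : Injective x := fun p q h => hx (congrArg Prod.snd h)
  have key : ∀ S : Finset (Fin H),
      Reach x (fun i => if i ∈ S then (r i, (x i).2) else x i) := by
    intro S
    induction S using Finset.induction_on with
    | empty =>
      simp only [Finset.notMem_empty, if_false]
      exact Relation.ReflTransGen.refl
    | insert a S ha ih =>
      have h1 := reach_inj hx' ih
      have h2 := reach_right h1 a (r a - (x a).1) (by
        intro k hk hk1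
        exfalso
        apply hk
        apply hx
        simp only at hk1 ⊢
        by_cases hkS : k ∈ S <;> by_cases haS : a ∈ S <;> simpa [hkS, haS] using hk1)
      refine Relation.ReflTransGen.trans ih ?_
      have e : (fun i => if i ∈ insert a S then (r i, (x i).2) else x i) =
          update (fun i => if i ∈ S then (r i, (x i).2) else x i) a
            ((if a ∈ S then (r a, (x a).2) else x a).1 + (r a - (x a).1),
              (if a ∈ S then (r a, (x a).2) else x a).2) := by
        funext k
        by_cases hk : k = a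
        · subst hk
          rw [update_self]
          have := hr k
          simp only [Finset.mem_insert_self, if_true, if_neg ha, Prod.mk.injEq, and_true]
          omega
        · rw [update_of_ne hk]
          simp [Finset.mem_insert, hk]
      rw [e]
      exact h2
  have := key Finset.univ
  simpa using this

/-- Every configuration can be brought to different columns, rows unchanged. -/
private theorem spread {x : Fin H → ℕ × ℕ} (hx : Injective x) (N : ℕ) (hN : ∀ i, (x i).1 < N) :
    ∃ c : Fin H → ℕ, Injective c ∧ (∀ i, c i < N + H) ∧ Reach x (fun i => (c i, (x i).2)) := by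
  classical
  set σ : Perm (Fin H) := Tuple.sort fun i => (x i).1 with hσ
  have hmono : Monotone ((fun i => (x i).1) ∘ σ) := Tuple.monotone_sort _
  set y : ℕ → Fin H → ℕ × ℕ := fun m i =>
    if m ≤ (σ.symm i : ℕ) then (N + (σ.symm i : ℕ), (x i).2) else x i with hy
  have hy0 : ∀ i, y 0 i = (N + (σ.symm i : ℕ), (x i).2) := fun i => by simp [hy]
  have hyH : y H = x := by
    funext i
    have := (σ.symm i).2
    simp only [hy]
    rw [if_neg (by omega)]
  have hstep : ∀ m, m < H → Injective (y (m + 1)) → Reach (y (m + 1)) (y m) := by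
    intro m hm hinj
    set j : Fin H := σ ⟨m, hm⟩ with hj
    have hsj : (σ.symm j : ℕ) = m := by simp [hj]
    have hyj : y (m + 1) j = x j := by
      simp only [hy]
      rw [if_neg (by omega)]
    have h1 := reach_right hinj j (N + m - (x j).1) (by
      intro k hk hk2
      rw [hyj] at hk2 ⊢
      have hxj := hN j
      by_cases hkm : m + 1 ≤ (σ.symm k : ℕ)
      · right
        simp only [hy]
        rw [if_pos hkm]
        simp only
        omega
      · left
        have hyk : y (m + 1) k = x k := by
          simp only [hy]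
          rw [if_neg hkm]
        rw [hyk]
        have hle : σ.symm k ≤ ⟨m, hm⟩ := by
          rw [Fin.le_def]
          simp only
          omega
        have := hmono hle
        simpa [hj] using this)
    rw [hyj] at h1
    convert h1 using 1
    funext k
    by_cases hk : k = j
    · subst hk
      rw [update_self]
      simp only [hy]
      rw [if_pos (by omega)]
      have := hN j
      ext
      · simp only
        omega
      · rfl
    · rw [update_of_ne hk]
      have hne : (σ.symm k : ℕ) ≠ m := by
        intro h
        apply hk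
        have h2 : σ.symm k = ⟨m, hm⟩ := Fin.ext h
        rw [hj, ← h2, Equiv.apply_symm_apply]
      simp only [hy]
      by_cases h3 : m ≤ (σ.symm k : ℕ)
      · rw [if_pos h3, if_pos (by omega)]
      · rw [if_neg h3, if_neg (by omega)]
  have hall : ∀ d, d ≤ H → Reach x (y (H - d)) := by
    intro d
    induction d with
    | zero =>
      intro _
      rw [Nat.sub_zero, hyH]
      exact Relation.ReflTransGen.refl
    | succ d ih =>
      intro hd
      have h1 := ih (by omega)
      have h2 := hstep (H - (d + 1)) (by omega)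
      have h3 : H - (d + 1) + 1 = H - d := by omega
      rw [h3] at h2
      exact Relation.ReflTransGen.trans h1 (h2 (reach_inj hx h1))
  refine ⟨fun i => N + (σ.symm i : ℕ), ?_, ?_, ?_⟩
  · intro p q h
    simp only at h
    have h1 : (σ.symm p : ℕ) = σ.symm q := by omega
    exact σ.symm.injective (Fin.ext h1)
  · intro i
    have := (σ.symm i).2
    simp only
    omega
  · have h1 := hall H le_rfl
    rw [Nat.sub_self] at h1
    have h2 : y 0 = fun i => (N + (σ.symm i : ℕ), (x i).2) := funext hy0
    rwa [h2] at h1

/-- Every configuration reaches all configurations far away in different rows. -/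
theorem reach_rows {x : Fin H → ℕ × ℕ} (hx : Injective x) :
    ∃ N : ℕ, ∀ t : Fin H → ℕ × ℕ, (Injective fun i => (t i).2) →
      (∀ i, N ≤ (t i).1 ∧ N ≤ (t i).2) → Reach x t := by
  obtain ⟨M, hM⟩ : ∃ M : ℕ, ∀ i, (x i).1 < M ∧ (x i).2 < M := by
    refine ⟨(∑ i, ((x i).1 + (x i).2)) + 1, fun i => ?_⟩
    have := Finset.single_le_sum (f := fun i => (x i).1 + (x i).2) (fun _ _ => Nat.zero_le _)
      (Finset.mem_univ i)
    omega
  obtain ⟨c, hc, hcM, hreach⟩ := spread hx M (fun i => (hM i).1)
  refine ⟨M + H, fun t ht hN => ?_⟩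
  have h1 := up_all (x := fun i => (c i, (x i).2)) hc (fun i => (t i).2) (fun i => by
    have := (hN i).2
    have := (hM i).2
    simp only
    omega)
  have h2 := right_all (x := fun i => (c i, (t i).2)) ht (fun i => (t i).1) (fun i => by
    have := (hN i).1
    have := hcM i
    simp only
    omega)
  exact (hreach.trans h1).trans h2

/-- One gadget: an optional `3`-cycle. -/
theorem gadget {Q : (Fin H → ℕ × ℕ) → Set (Perm (Fin H)) → Prop} (hQ : SetMoves Q)
    {x : Fin H → ℕ × ℕ} (hx : Injective x) {G G' : Set (Perm (Fin H))} {i j l : Fin H}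
    (hij : i ≠ j) (hil : i ≠ l) (hjl : j ≠ l) {c : Perm (Fin H)} (hci : c i = l) (hcl : c l = j)
    (hcj : c j = i) (hck : ∀ k, k ≠ i → k ≠ j → k ≠ l → c k = k)
    (hG : ∀ g ∈ G, g ∈ G' ∨ g * c⁻¹ ∈ G') (h : Q x G) :
    ∃ z : Fin H → ℕ × ℕ, Injective z ∧ Q z G' := by
  classical
  obtain ⟨N, hN⟩ := reach_rows hx
  -- first target: different rows
  set t : Fin H → ℕ × ℕ := fun k =>
    if k = i then (N + 1, N) else if k = j then (N + 2, N + 1) else
      if k = l then (N + 1, N + 2) else (N, N + 3 + (k : ℕ)) with ht
  have hti : t i = (N + 1, N) := by simp [ht]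
  have htj : t j = (N + 2, N + 1) := by simp [ht, hij.symm]
  have htl : t l = (N + 1, N + 2) := by simp [ht, hil.symm, hjl.symm]
  have htk : ∀ k, k ≠ i → k ≠ j → k ≠ l → t k = (N, N + 3 + (k : ℕ)) := by
    intro k h1 h2 h3
    simp [ht, h1, h2, h3]
  have hcases : ∀ k : Fin H, k = i ∨ k = j ∨ k = l ∨ (k ≠ i ∧ k ≠ j ∧ k ≠ l) := by
    intro k
    tauto
  have htrow : Injective fun k => (t k).2 := by
    intro p q hpq
    simp only at hpq
    rcases hcases p with rfl | rfl | rfl | ⟨h1, h2, h3⟩ <;>
    rcases hcases q with rfl | rfl | rfl | ⟨h4, h5, h6⟩ <;>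
    first
      | rfl
      | (simp only [hti, htj, htl] at hpq; omega)
      | (rw [htk _ h4 h5 h6] at hpq; simp only [hti, htj, htl] at hpq; omega)
      | (rw [htk _ h1 h2 h3] at hpq; simp only [hti, htj, htl] at hpq; omega)
      | (rw [htk _ h1 h2 h3, htk _ h4 h5 h6] at hpq; exact Fin.ext (by simp only at hpq; omega))
  have htN : ∀ k, N ≤ (t k).1 ∧ N ≤ (t k).2 := by
    intro k
    rcases hcases k with rfl | rfl | rfl | ⟨h1, h2, h3⟩
    · rw [hti]; simp
    · rw [htj]; simp
    · rw [htl]; simp
    · rw [htk k h1 h2 h3]; simp only; omega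
  have hxt := hN t htrow htN
  have htinj := reach_inj hx hxt
  -- move `l`, `j`, `i` up
  set U : ℕ := N + 3 with hU
  have r1 : Reach t (update t l (N + 1, U + 1)) := by
    have := reach_up htinj l (U + 1 - (N + 2)) (by
      intro k hk hk1
      rw [htl] at hk1 ⊢
      left
      rcases hcases k with rfl | rfl | rfl | ⟨h1, h2, h3⟩
      · rw [hti]; simp
      · rw [htj]; simp
      · exact absurd rfl hk
      · rw [htk k h1 h2 h3] at hk1; simp at hk1)
    rw [htl] at this
    have e : ((N + 1, N + 2 + (U + 1 - (N + 2))) : ℕ × ℕ) = (N + 1, U + 1) := by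
      ext <;> simp only <;> omega
    simpa only [e] using this
  set t1 := update t l (N + 1, U + 1) with ht1
  have ht1inj := reach_inj htinj r1
  have r2 : Reach t1 (update t1 j (N + 2, U)) := by
    have hj1 : t1 j = (N + 2, N + 1) := by rw [ht1, update_of_ne hjl, htj]
    have := reach_up ht1inj j (U - (N + 1)) (by
      intro k hk hk1
      rw [hj1] at hk1 ⊢
      exfalso
      rcases hcases k with rfl | rfl | rfl | ⟨h1, h2, h3⟩
      · rw [ht1, update_of_ne hil, hti] at hk1; simp at hk1
      · exact hk rfl
      · rw [ht1, update_self] at hk1; simp at hk1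
      · rw [ht1, update_of_ne h3, htk k h1 h2 h3] at hk1; simp at hk1)
    rw [hj1] at this
    have e : ((N + 2, N + 1 + (U - (N + 1))) : ℕ × ℕ) = (N + 2, U) := by
      ext <;> simp only <;> omega
    simpa only [e] using this
  set t2 := update t1 j (N + 2, U) with ht2
  have ht2inj := reach_inj ht1inj r2
  have r3 : Reach t2 (update t2 i (N + 1, U)) := by
    have hi2 : t2 i = (N + 1, N) := by
      rw [ht2, update_of_ne hij, ht1, update_of_ne hil, hti]
    have := reach_up ht2inj i (U - N) (by
      intro k hk hk1
      rw [hi2] at hk1 ⊢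
      rcases hcases k with rfl | rfl | rfl | ⟨h1, h2, h3⟩
      · exact absurd rfl hk
      · rw [ht2, update_self] at hk1; simp at hk1
      · right
        rw [ht2, update_of_ne hjl.symm, ht1, update_self]
        simp only
        omega
      · rw [ht2, update_of_ne h2, ht1, update_of_ne h3, htk k h1 h2 h3] at hk1; simp at hk1)
    rw [hi2] at this
    have e : ((N + 1, N + (U - N)) : ℕ × ℕ) = (N + 1, U) := by
      ext <;> simp only <;> omega
    simpa only [e] using this
  set y := update t2 i (N + 1, U) with hy
  have hyinj := reach_inj ht2inj r3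
  have hQy : Q y G := reach_Q hQ (((hxt.trans r1).trans r2).trans r3) h
  have hyi : y i = (N + 1, U) := by rw [hy, update_self]
  have hyj : y j = (N + 2, U) := by rw [hy, update_of_ne hij.symm, ht2, update_self]
  have hyl : y l = (N + 1, U + 1) := by
    rw [hy, update_of_ne hil.symm, ht2, update_of_ne hjl.symm, ht1, update_self]
  have hyk : ∀ k, k ≠ i → k ≠ j → k ≠ l → y k = (N, N + 3 + (k : ℕ)) := by
    intro k h1 h2 h3
    rw [hy, update_of_ne h1, ht2, update_of_ne h2, ht1, update_of_ne h3, htk k h1 h2 h3]
  -- the hexagon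
  set z : Fin H → ℕ × ℕ := update (update y i (N + 2, U)) j (N + 2, U + 1) with hz
  have hzi : z i = (N + 2, U) := by rw [hz, update_of_ne hij, update_self]
  have hzj : z j = (N + 2, U + 1) := by rw [hz, update_self]
  have hzl : z l = (N + 1, U + 1) := by
    rw [hz, update_of_ne hjl.symm, update_of_ne hil.symm, hyl]
  have hzk : ∀ k, k ≠ i → k ≠ j → k ≠ l → z k = y k := by
    intro k h1 h2 h3
    rw [hz, update_of_ne h2, update_of_ne h1]
  have hzinj : Injective z := by
    intro p q hpq
    rcases hcases p with rfl | rfl | rfl | ⟨h1, h2, h3⟩ <;>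
    rcases hcases q with rfl | rfl | rfl | ⟨h4, h5, h6⟩ <;>
    first
      | rfl
      | (simp only [hzi, hzj, hzl, Prod.mk.injEq] at hpq; omega)
      | (rw [hzk _ h4 h5 h6, hyk _ h4 h5 h6] at hpq
         simp only [hzi, hzj, hzl, Prod.mk.injEq] at hpq; omega)
      | (rw [hzk _ h1 h2 h3, hyk _ h1 h2 h3] at hpq
         simp only [hzi, hzj, hzl, Prod.mk.injEq] at hpq; omega)
      | (rw [hzk _ h1 h2 h3, hzk _ h4 h5 h6] at hpq; exact hyinj hpq)
  refine ⟨z, hzinj, hQ y z c G G' hyinj hzinj ?_ ?_ ?_ hG hQy⟩
  · intro k
    rcases hcases k with rfl | rfl | rfl | ⟨h1, h2, h3⟩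
    · right; left; rw [hzi, hyi]; rfl
    · right; right; rw [hzj, hyj]; rfl
    · left; rw [hzl, hyl]
    · left; exact hzk k h1 h2 h3
  · intro k
    rcases hcases k with rfl | rfl | rfl | ⟨h1, h2, h3⟩
    · right; right; rw [hci, hzl, hyi]; rfl
    · left; rw [hcj, hzi, hyj]
    · right; left; rw [hcl, hzj, hyl]; rfl
    · left; rw [hck k h1 h2 h3]; exact hzk k h1 h2 h3
  · refine ⟨(N + 1, U), (N + 2, U + 1), ⟨i, hyi⟩, ?_, ?_⟩
    · rintro ⟨k, hk⟩
      rcases hcases k with rfl | rfl | rfl | ⟨h1, h2, h3⟩
      · rw [hyi] at hk; simp at hk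
      · rw [hyj] at hk; simp at hk
      · rw [hyl] at hk; simp at hk
      · rw [hyk k h1 h2 h3] at hk; simp at hk
    · ext p
      constructor
      · rintro ⟨k, rfl⟩
        rcases hcases k with rfl | rfl | rfl | ⟨h1, h2, h3⟩
        · right
          rw [hzi]
          exact ⟨⟨j, hyj⟩, by simp⟩
        · left; exact hzj
        · right
          rw [hzl]
          refine ⟨⟨_, hyl⟩, by simp⟩
        · right
          rw [hzk k h1 h2 h3]
          refine ⟨⟨k, rfl⟩, ?_⟩
          rw [hyk k h1 h2 h3]
          simp
      · rintro (rfl | ⟨⟨k, rfl⟩, hk⟩)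
        · exact ⟨j, hzj⟩
        · rcases hcases k with rfl | rfl | rfl | ⟨h1, h2, h3⟩
          · exact absurd hyi hk
          · exact ⟨i, by rw [hzi, hyj]⟩
          · exact ⟨_, by rw [hzl, hyl]⟩
          · exact ⟨k, hzk k h1 h2 h3⟩

/-- The subproducts of a list (the head is the rightmost factor). -/
def Sub : List (Perm (Fin H)) → Set (Perm (Fin H))
  | [] => {1}
  | c :: L => {g | g ∈ Sub L ∨ g * c⁻¹ ∈ Sub L}

theorem sub_append_right (L L' : List (Perm (Fin H))) : Sub L ⊆ Sub (L' ++ L) := by
  induction L' with
  | nil => exact fun g hg => hg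
  | cons c L' ih => exact fun g hg => Or.inl (ih hg)

theorem sub_mul {L L' : List (Perm (Fin H))} {g h : Perm (Fin H)} (hg : g ∈ Sub L)
    (hh : h ∈ Sub L') : g * h ∈ Sub (L' ++ L) := by
  induction L' generalizing h with
  | nil =>
    have : h = 1 := hh
    rw [this, mul_one]
    exact hg
  | cons c L' ih =>
    rcases hh with hh | hh
    · exact Or.inl (ih hh)
    · right
      rw [mul_assoc]
      exact ih hh

/-- A `3`-cycle in coordinates. -/
private theorem three_cycle {σ : Perm (Fin H)} (hσ : σ.IsThreeCycle) :
    ∃ i j l : Fin H, i ≠ j ∧ i ≠ l ∧ j ≠ l ∧ σ i = l ∧ σ l = j ∧ σ j = i ∧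
      ∀ k, k ≠ i → k ≠ j → k ≠ l → σ k = k := by
  classical
  have hcard : σ.support.card = 3 := hσ.card_support
  have hne : σ.support.Nonempty := by
    rw [← Finset.card_pos, hcard]
    norm_num
  obtain ⟨i, hi⟩ := hne
  have h3 : σ ^ 3 = 1 := by
    rw [← hσ.orderOf]
    exact pow_orderOf_eq_one σ
  have h3' : σ (σ (σ i)) = i := by
    have := congrArg (fun τ : Perm (Fin H) => τ i) h3
    simpa [pow_succ] using this
  have hii : σ i ≠ i := Perm.mem_support.1 hi
  have hl : σ i ∈ σ.support := Perm.apply_mem_support.2 hi
  have hj : σ (σ i) ∈ σ.support := Perm.apply_mem_support.2 hl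
  have hij : i ≠ σ (σ i) := by
    intro h
    apply hii
    rw [← h] at h3'
    exact h3'
  have hil : i ≠ σ i := fun h => hii h.symm
  have hjl : σ (σ i) ≠ σ i := fun h => hii (σ.injective h)
  refine ⟨i, σ (σ i), σ i, hij, hil, hjl, rfl, rfl, h3', ?_⟩
  intro k h1 h2 h4
  by_contra hk
  have hk' : k ∈ σ.support := Perm.mem_support.2 hk
  have hsub : ({i, σ (σ i), σ i, k} : Finset (Fin H)) ⊆ σ.support := by
    intro p hp
    simp only [Finset.mem_insert, Finset.mem_singleton] at hp
    rcases hp with rfl | rfl | rfl | rfl
    · exact hi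
    · exact hj
    · exact hl
    · exact hk'
  have h4' : ({i, σ (σ i), σ i, k} : Finset (Fin H)).card = 4 := by
    rw [Finset.card_insert_of_notMem, Finset.card_insert_of_notMem,
      Finset.card_insert_of_notMem, Finset.card_singleton]
    · simp only [Finset.mem_singleton]
      exact fun h => h4 h.symm
    · simp only [Finset.mem_insert, Finset.mem_singleton, not_or]
      exact ⟨hjl, fun h => h2 h.symm⟩
    · simp only [Finset.mem_insert, Finset.mem_singleton, not_or]
      exact ⟨hij, hil, fun h => h1 h.symm⟩
  have := Finset.card_le_card hsub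
  omega

/-- The alternating group consists of the subproducts of a list of `3`-cycles. -/
theorem exists_list (H : ℕ) : ∃ L : List (Perm (Fin H)), (∀ c ∈ L, c.IsThreeCycle) ∧
    ∀ g ∈ alternatingGroup (Fin H), g ∈ Sub L := by
  classical
  have key : ∀ g ∈ alternatingGroup (Fin H), ∃ L : List (Perm (Fin H)),
      (∀ c ∈ L, c.IsThreeCycle) ∧ g ∈ Sub L := by
    intro g hg
    rw [← Equiv.Perm.closure_three_cycles_eq_alternating] at hg
    have hmul : ∀ a b : Perm (Fin H),
        (∃ L : List (Perm (Fin H)), (∀ c ∈ L, c.IsThreeCycle) ∧ a ∈ Sub L) →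
        (∃ L : List (Perm (Fin H)), (∀ c ∈ L, c.IsThreeCycle) ∧ b ∈ Sub L) →
        ∃ L : List (Perm (Fin H)), (∀ c ∈ L, c.IsThreeCycle) ∧ a * b ∈ Sub L := by
      rintro a b ⟨L, hL, ha⟩ ⟨L', hL', hb⟩
      refine ⟨L' ++ L, ?_, sub_mul ha hb⟩
      intro c hc
      rcases List.mem_append.1 hc with hc | hc
      · exact hL' c hc
      · exact hL c hc
    have hone : ∃ L : List (Perm (Fin H)), (∀ c ∈ L, c.IsThreeCycle) ∧
        (1 : Perm (Fin H)) ∈ Sub L :=
      ⟨[], by simp, rfl⟩
    induction hg using Subgroup.closure_induction with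
    | mem a ha =>
      refine ⟨[a], by simpa using ha, ?_⟩
      right
      change a * a⁻¹ = 1
      exact mul_inv_cancel a
    | one => exact hone
    | mul a b _ _ ha hb => exact hmul a b ha hb
    | inv a _ ha =>
      have hpow : ∀ n : ℕ, ∃ L : List (Perm (Fin H)), (∀ c ∈ L, c.IsThreeCycle) ∧
          a ^ n ∈ Sub L := by
        intro n
        induction n with
        | zero => simpa using hone
        | succ n ih =>
          rw [pow_succ]
          exact hmul _ _ ih ha
      have h1 : a⁻¹ = a ^ (Fintype.card (Perm (Fin H)) - 1) := by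
        apply inv_eq_of_mul_eq_one_left
        rw [← pow_succ, Nat.sub_add_cancel (Nat.succ_le_of_lt Fintype.card_pos)]
        exact pow_card_eq_one
      rw [h1]
      exact hpow _
  -- concatenate the lists of all elements
  have key2 : ∀ S : List (Perm (Fin H)), ∃ L : List (Perm (Fin H)),
      (∀ c ∈ L, c.IsThreeCycle) ∧ ∀ g ∈ S, g ∈ alternatingGroup (Fin H) → g ∈ Sub L := by
    intro S
    induction S with
    | nil => exact ⟨[], by simp, by simp⟩
    | cons a S ih =>
      obtain ⟨L, hL, hS⟩ := ih
      by_cases ha : a ∈ alternatingGroup (Fin H)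
      · obtain ⟨L', hL', ha'⟩ := key a ha
        refine ⟨L ++ L', ?_, ?_⟩
        · intro c hc
          rcases List.mem_append.1 hc with hc | hc
          · exact hL c hc
          · exact hL' c hc
        · intro g hg hgA
          rcases List.mem_cons.1 hg with rfl | hg
          · exact sub_append_right L' L ha'
          · have h1 : (1 : Perm (Fin H)) ∈ Sub L' := by
              clear hL' ha'
              induction L' with
              | nil => rfl
              | cons c L' ih => exact Or.inl ih
            have h2 := sub_mul h1 (hS g hg hgA)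
            rwa [one_mul] at h2
      · refine ⟨L, hL, ?_⟩
        intro g hg hgA
        rcases List.mem_cons.1 hg with rfl | hg
        · exact absurd hgA ha
        · exact hS g hg hgA
  obtain ⟨L, hL, hS⟩ := key2 (Finset.univ : Finset (Perm (Fin H))).toList
  exact ⟨L, hL, fun g hg => hS g (by simp) hg⟩

/-- **The puzzle.** From the alternating group at any places to the trivial group at all places far
away in different rows. -/
theorem puzzle {Q : (Fin H → ℕ × ℕ) → Set (Perm (Fin H)) → Prop} (hQ : SetMoves Q)
    (hmono : ∀ (x : Fin H → ℕ × ℕ) (G G' : Set (Perm (Fin H))), G ⊆ G' → Q x G → Q x G')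
    {x : Fin H → ℕ × ℕ} (hx : Injective x)
    (h : Q x {g | g ∈ alternatingGroup (Fin H)}) :
    ∃ N : ℕ, ∀ t : Fin H → ℕ × ℕ, (Injective fun i => (t i).2) →
      (∀ i, N ≤ (t i).1 ∧ N ≤ (t i).2) → Q t {1} := by
  classical
  obtain ⟨L, hL, hA⟩ := exists_list H
  have key : ∀ L : List (Perm (Fin H)), (∀ c ∈ L, c.IsThreeCycle) →
      ∀ (x : Fin H → ℕ × ℕ), Injective x → Q x (Sub L) →
      ∃ z : Fin H → ℕ × ℕ, Injective z ∧ Q z {1} := by
    intro L
    induction L with
    | nil =>
      intro _ x hx hQx
      exact ⟨x, hx, hQx⟩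
    | cons c L ih =>
      intro hc x hx hQx
      obtain ⟨i, j, l, hij, hil, hjl, h1, h2, h3, h4⟩ := three_cycle (hc c (by simp))
      obtain ⟨z, hz, hQz⟩ := gadget hQ hx hij hil hjl h1 h2 h3 h4 (G := Sub (c :: L))
        (G' := Sub L) (fun g hg => hg) hQx
      exact ih (fun c' hc' => hc c' (by simp [hc'])) z hz hQz
  obtain ⟨z, hz, hQz⟩ := key L hL x hx (hmono x _ _ (fun g hg => hA g hg) h)
  obtain ⟨N, hN⟩ := reach_rows hz
  exact ⟨N, fun t ht htN => reach_Q hQ (hN t ht htN) hQz⟩

end Pool.Agent.Helper34.SN
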